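import Pool.Agent.Helper21.TNB.Flat

open scoped RealInnerProductSpace

namespace Pool.Agent.Results.MP_6a9378_an.DiscreteCoordinates

/-- `T n : X → E n` are linear maps from a normed space `X` into finite-dimensional normed spaces
with `(∑ ‖T n v‖ ^ q) ^ (1 / q) ≤ C ‖v‖` and `‖v‖ ≤ D ∑ ‖T n v‖` (for instance the coordinates of
a finite-dimensional decomposition with a lower `q`-estimate, `q < ∞`). Then no map from an
infinite-dimensional inner product space to `X` whose values have uniformly separated coordinates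
is a coarse embedding. -/
theorem result {V : Type*} [NormedAddCommGroup V] [InnerProductSpace ℝ V]
    (hV : ¬ FiniteDimensional ℝ V)
    {X : Type*} [NormedAddCommGroup X] [NormedSpace ℝ X]
    {E : ℕ → Type*} [∀ n, NormedAddCommGroup (E n)] [∀ n, NormedSpace ℝ (E n)]
    [∀ n, FiniteDimensional ℝ (E n)]
    (T : (n : ℕ) → X →ₗ[ℝ] E n) {q C D : ℝ} (hq : 0 < q) (hC : 0 ≤ C)
    (hT : ∀ (v : X) (F : Finset ℕ), (∑ n ∈ F, ‖T n v‖ ^ q) ^ (1 / q) ≤ C * ‖v‖)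
    (hD : ∀ v : X, (Summable fun n => ‖T n v‖) → ‖v‖ ≤ D * ∑' n, ‖T n v‖)
    (f : V → X) {δ : ℝ} (hδ : 0 < δ)
    (hf : ∀ (x y : V) (n : ℕ), T n (f x) = T n (f y) ∨ δ ≤ ‖T n (f x) - T n (f y)‖) :
    ¬ ((∀ t : ℝ, ∃ K : ℝ, ∀ x y : V, dist x y ≤ t → dist (f x) (f y) ≤ K) ∧
       (∀ R : ℝ, ∃ S : ℝ, ∀ x y : V, S ≤ dist x y → R ≤ dist (f x) (f y))) := by
  rintro ⟨h1, h2⟩
  obtain ⟨K, hK⟩ := h1 1
  have hr : 0 < q + 1 := by linarith
  set c : ℝ := 2 ^ (1 / (q + 1) - 1 / q) * (C * K) + 1 with hc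
  obtain ⟨S, hS⟩ := h2 (|D| * (δ ^ (-q) * c ^ (q + 1)) + 1)
  obtain ⟨x, y, hx, hy, hxy, hsum, hle⟩ := TNB.flat hV T hq (r := q + 1) (by linarith) hC hT
    (R := max S 1) (t := 1) (K := K) (ε := 1) (by positivity) one_pos one_pos f
    (fun x y _ _ hxy => by
      rw [← dist_eq_norm]
      exact hK x y (by rwa [dist_eq_norm]))
  have hnn : 0 ≤ ∑' n, ‖T n (f x - f y)‖ ^ (q + 1) := tsum_nonneg fun n => by positivity
  have hdist : S ≤ dist x y := by
    have e1 : dist x y ^ 2 = 2 * max S 1 ^ 2 := by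
      rw [dist_eq_norm, norm_sub_sq_real, hx, hy, hxy]
      ring
    have e2 : max S 1 ≤ dist x y := by
      refine le_of_sq_le_sq ?_ dist_nonneg
      rw [e1]
      nlinarith [sq_nonneg (max S 1)]
    exact (le_max_left _ _).trans e2
  have h3 := hS x y hdist
  have hsum2 : ∑' n, ‖T n (f x - f y)‖ ^ (q + 1) ≤ c ^ (q + 1) := by
    calc ∑' n, ‖T n (f x - f y)‖ ^ (q + 1)
        = ((∑' n, ‖T n (f x - f y)‖ ^ (q + 1)) ^ (1 / (q + 1))) ^ (q + 1) := by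
          rw [← Real.rpow_mul hnn, one_div_mul_cancel hr.ne', Real.rpow_one]
      _ ≤ c ^ (q + 1) := Real.rpow_le_rpow (by positivity) hle hr.le
  have hpt : ∀ n, ‖T n (f x - f y)‖ ≤ δ ^ (-q) * ‖T n (f x - f y)‖ ^ (q + 1) := by
    intro n
    rcases hf x y n with h | h
    · rw [map_sub, h, sub_self, norm_zero]
      positivity
    · rw [← map_sub] at h
      have e1 : 0 < ‖T n (f x - f y)‖ := hδ.trans_le h
      rw [Real.rpow_add e1, Real.rpow_one, ← mul_assoc]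
      have e2 : 1 ≤ δ ^ (-q) * ‖T n (f x - f y)‖ ^ q := by
        rw [Real.rpow_neg hδ.le, ← div_eq_inv_mul, le_div_iff₀ (by positivity), one_mul]
        exact Real.rpow_le_rpow hδ.le h hq.le
      nlinarith
  have hs1 : Summable fun n => ‖T n (f x - f y)‖ :=
    Summable.of_nonneg_of_le (fun n => norm_nonneg _) hpt (hsum.mul_left _)
  have hs2 : ∑' n, ‖T n (f x - f y)‖ ≤ δ ^ (-q) * c ^ (q + 1) := by
    calc ∑' n, ‖T n (f x - f y)‖ ≤ ∑' n, δ ^ (-q) * ‖T n (f x - f y)‖ ^ (q + 1) :=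
          hs1.tsum_le_tsum hpt (hsum.mul_left _)
      _ = δ ^ (-q) * ∑' n, ‖T n (f x - f y)‖ ^ (q + 1) := tsum_mul_left
      _ ≤ δ ^ (-q) * c ^ (q + 1) := by gcongr
  have hs0 : 0 ≤ ∑' n, ‖T n (f x - f y)‖ := tsum_nonneg fun n => norm_nonneg _
  have h4 : dist (f x) (f y) ≤ |D| * (δ ^ (-q) * c ^ (q + 1)) := by
    rw [dist_eq_norm]
    calc ‖f x - f y‖ ≤ D * ∑' n, ‖T n (f x - f y)‖ := hD _ hs1
      _ ≤ |D| * ∑' n, ‖T n (f x - f y)‖ := by gcongr; exact le_abs_self D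
      _ ≤ |D| * (δ ^ (-q) * c ^ (q + 1)) := by gcongr
  linarith

end Pool.Agent.Results.MP_6a9378_an.DiscreteCoordinates
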