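import Pool.Agent.Helper21.TNB.Flat

open scoped RealInnerProductSpace

namespace Pool.Agent.Results.MP_6a9378_an.FlatDifferences

/-- `V` is an infinite-dimensional real inner product space (for instance `ℓ₂`), `X` is a normed
space and `T n : X → E n` are linear maps into finite-dimensional normed spaces which satisfy
`(∑ ‖T n v‖ ^ q) ^ (1 / q) ≤ C ‖v‖`: a lower `q`-estimate, if the `T n` are the coordinates of a
finite-dimensional decomposition of `X` or of a space containing `X`. Let `f : V → X` be any map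
with `‖f x - f y‖ ≤ K` for all `x, y` on the sphere of radius `R` with `‖x - y‖ ≤ t`. Then for
every `r > q` there are orthogonal `x, y` of norm `R` for which the `ℓ_r`-norm of the coordinates
of `f x - f y` is at most `2 ^ (1 / r - 1 / q) C K + ε`, a bound which does not depend on `R`
and `t`. -/
theorem result {V : Type*} [NormedAddCommGroup V] [InnerProductSpace ℝ V]
    (hV : ¬ FiniteDimensional ℝ V)
    {X : Type*} [NormedAddCommGroup X] [NormedSpace ℝ X]
    {E : ℕ → Type*} [∀ n, NormedAddCommGroup (E n)] [∀ n, NormedSpace ℝ (E n)]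
    [∀ n, FiniteDimensional ℝ (E n)]
    (T : (n : ℕ) → X →ₗ[ℝ] E n) {q r C : ℝ} (hq : 0 < q) (hqr : q < r) (hC : 0 ≤ C)
    (hT : ∀ (v : X) (F : Finset ℕ), (∑ n ∈ F, ‖T n v‖ ^ q) ^ (1 / q) ≤ C * ‖v‖)
    {R t K ε : ℝ} (hR : 0 < R) (ht : 0 < t) (hε : 0 < ε) (f : V → X)
    (hK : ∀ x y : V, ‖x‖ = R → ‖y‖ = R → ‖x - y‖ ≤ t → ‖f x - f y‖ ≤ K) :
    ∃ x y : V, ‖x‖ = R ∧ ‖y‖ = R ∧ ⟪x, y⟫ = 0 ∧
      (Summable fun n => ‖T n (f x - f y)‖ ^ r) ∧
      (∑' n, ‖T n (f x - f y)‖ ^ r) ^ (1 / r) ≤ 2 ^ (1 / r - 1 / q) * (C * K) + ε :=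
  TNB.flat hV T hq hqr hC hT hR ht hε f hK

end Pool.Agent.Results.MP_6a9378_an.FlatDifferences
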